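import Pool.Agent.T33.Core

/-!
Three truncated hypergeometric sums modulo `p ^ 3` (problem MP_9f27ff_nt, question Q1).

The definitions of the statement are `S1`, `S2`, `S3` and `CongCube` below; the congruences are proved in `Pool.Agent.T33.Core`
in the ring of integers modulo `p ^ 3` and transferred here to the ring of rationals with denominator prime to `p`.
-/

set_option autoImplicit false

namespace Pool.Agent.Results.MP_9f27ff_nt.ThreeSums

open Finset

/-- The first sum, over `0 ≤ k ≤ (p-1)/2`. -/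
def S1 (p : ℕ) : ℚ := ∑ k ∈ range ((p - 1) / 2 + 1), ((2 * k).choose k : ℚ) ^ 3 / 64 ^ k

/-- The second sum, over `0 ≤ k ≤ p-1`. -/
def S2 (p : ℕ) : ℚ := ∑ k ∈ range p, ((2 * k).choose k : ℚ) * ((3 * k).choose k : ℚ) * ((6 * k).choose (3 * k) : ℚ) / 12 ^ (3 * k)

/-- The third sum, over `0 ≤ k ≤ p-1`. -/
def S3 (p : ℕ) : ℚ := ∑ k ∈ range p, ((2 * k).choose k : ℚ) * ((3 * k).choose k : ℚ) * ((6 * k).choose (3 * k) : ℚ) / 66 ^ (3 * k)

/-- Congruence modulo `p ^ 3` in the ring of rational numbers whose denominator is prime to the prime `p`: both numbers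
belong to this ring and their difference is `p ^ 3` times an element of this ring. -/
def CongCube (p : ℕ) (x y : ℚ) : Prop :=
  ¬ p ∣ x.den ∧ ¬ p ∣ y.den ∧ ∃ z : ℚ, ¬ p ∣ z.den ∧ x - y = (p : ℚ) ^ 3 * z

theorem S1_eq (p : ℕ) : S1 p = ∑ n ∈ range ((p - 1) / 2 + 1), (T33.cB n : ℚ) / ((64 : ℕ) : ℚ) ^ n := by
  rw [S1]
  apply Finset.sum_congr rfl
  intro n _
  rw [T33.cB]
  push_cast
  rfl

theorem S2_eq (p : ℕ) : S2 p = ∑ n ∈ range p, (T33.cC n : ℚ) / ((1728 : ℕ) : ℚ) ^ n := by
  rw [S2]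
  apply Finset.sum_congr rfl
  intro n _
  rw [T33.cC, pow_mul]
  push_cast
  norm_num

theorem S3_eq (p : ℕ) : S3 p = ∑ n ∈ range p, (T33.cC n : ℚ) / ((287496 : ℕ) : ℚ) ^ n := by
  rw [S3]
  apply Finset.sum_congr rfl
  intro n _
  rw [T33.cC, pow_mul]
  push_cast
  norm_num

/-- Question Q1 of the problem, in full: for every prime `p > 3` with `p ≡ 1 (mod 4)`,
`S1(p) ≡ (3/p) S2(p) ≡ (33/p) S3(p) (mod p^3)`. -/
theorem result (p : ℕ) [Fact p.Prime] (h3 : 3 < p) (h : p % 4 = 1) :
    CongCube p (S1 p) ((legendreSym p 3 : ℚ) * S2 p) ∧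
    CongCube p ((legendreSym p 3 : ℚ) * S2 p) ((legendreSym p 33 : ℚ) * S3 p) := by
  have hp : p.Prime := Fact.out
  have h5 : 5 ≤ p := by omega
  obtain ⟨hA, hB⟩ := T33.core h5 h
  have n64 : ¬ p ∣ 64 := by
    intro hd
    have : p ∣ 2 ^ 6 := by norm_num; exact hd
    have := Nat.le_of_dvd (by norm_num) (hp.dvd_of_dvd_pow this)
    omega
  have n1728 : ¬ p ∣ 1728 := by
    intro hd
    have : p ∣ 12 ^ 3 := by norm_num; exact hd
    have h12 := hp.dvd_of_dvd_pow this
    have h12' : p ∣ 4 * 3 := by norm_num; exact h12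
    rcases (Nat.Prime.dvd_mul hp).1 h12' with h | h <;> have := Nat.le_of_dvd (by norm_num) h <;> omega
  have n287496 : ¬ p ∣ 287496 := by
    intro hd
    have : p ∣ 66 ^ 3 := by norm_num; exact hd
    have h66 := hp.dvd_of_dvd_pow this
    have h66' : p ∣ 6 * 11 := by norm_num; exact h66
    rcases (Nat.Prime.dvd_mul hp).1 h66' with h | h
    · have := Nat.le_of_dvd (by norm_num) h
      have h6 : p = 5 ∨ p = 6 := by omega
      rcases h6 with rfl | rfl <;> omega
    · have := (Nat.prime_dvd_prime_iff_eq hp (by norm_num)).1 h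
      omega
  rw [T33.trunc hp (by omega)] at hA hB
  constructor
  · have t := T33.transfer hp (a := T33.cB) (b := T33.cC) (B := 64) (B' := 1728) (N := (p - 1) / 2 + 1) (N' := p) n64 n1728 (s := 1) (t := legendreSym p 3)
      (by push_cast; rw [one_mul]; exact hA)
    rw [S1_eq, S2_eq]
    simpa [CongCube] using t
  · have t := T33.transfer hp (a := T33.cC) (b := T33.cC) (B := 1728) (B' := 287496) (N := p) (N' := p) n1728 n287496 (s := legendreSym p 3) (t := legendreSym p 33)
      (by push_cast; rw [← hA, ← hB])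
    rw [S2_eq, S3_eq]
    exact t

end Pool.Agent.Results.MP_9f27ff_nt.ThreeSums
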